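import Pool.Graph.R_seed8.Y754.GD.Num
import Pool.Agent.F2CG.SysPU
import Pool.Agent.F2CG.SysDU

set_option autoImplicit false

/-!
# Countably many systems of threats at the same time, with constants independent of the numbers

The proofs follow `Pool.Agent.Y754.GD.sysAll`, `full` and the lemmas of `Num` (library).
-/

namespace Pool.Agent.F2CG

open Pool.Agent.Y754.GD
open Pool.Agent.H238R3.Lines Pool.Agent.H238R3.Game Pool.Agent.H238R3.Fam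

/-- what the game yields for `ζ` and the number `ξ`, with the constants -/
def GoodU (c ε κ : ℝ) (C : ℕ) (ζ ξ : ℝ) : Prop :=
  (∀ v : ℤ × ℤ, IsCoprime v.1 v.2 → 0 < v.1 → c/(v.1:ℝ)^2 ≤ |ξ - (v.2:ℝ)/v.1|) ∧
  (∀ (m : ℕ) (v : ℤ × ℤ × ℤ), Prim v → 0 < v.1 → (v.1:ℝ) ≤ ((2:ℝ)^(C*5^m))^4 →
    |(v.2.1:ℝ) - ζ * v.1| < 1 →
    (thP ζ ε ((2:ℝ)^(C*5^m)) v).2 ≤ |ξ - (thP ζ ε ((2:ℝ)^(C*5^m)) v).1|) ∧
  (∀ (v : ℤ × ℤ × ℤ), Prim v → 0 < v.1 →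
    κ ≤ Real.sqrt (v.1:ℝ) * max |(v.2.1:ℝ) - ζ * v.1| |(v.1:ℝ) * ξ - v.2.2|)

/-- all threats for one `ζ`, with arbitrarily small weight and constants independent of `ζ` -/
theorem sysAllU (δ η : ℝ) (hη : 0 < η) (hδ : 0 < δ) (hδ1 : δ ≤ 1) :
    ∃ c ε κ : ℝ, 0 < c ∧ 0 < ε ∧ 0 < κ ∧ ∀ C : ℕ, 2^20/δ < (2:ℝ)^C → 1 ≤ C → ∀ ζ : ℝ,
      (∀ q p : ℤ, q ≠ 0 → δ ≤ |(q:ℝ)| * |(q:ℝ)*ζ - p|) →
    ∃ Thr : ℕ → Set (ℝ × ℝ), (∀ n, ∀ t ∈ Thr n, t.2 ≤ η * rho n) ∧ Fm Thr η ∧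
      ∀ ξ : ℝ, (∀ n, ∀ t ∈ Thr n, t.2 ≤ |ξ - t.1|) → GoodU c ε κ C ζ ξ := by
  obtain ⟨s, hs⟩ : ∃ s : ℝ, s = min (η/3) 1 := ⟨_, rfl⟩
  have hs0 : 0 < s := by rw [hs]; exact lt_min (by positivity) one_pos
  have hs1 : s ≤ 1 := by rw [hs]; exact min_le_right _ _
  have hsη : s ≤ η/3 := by rw [hs]; exact min_le_left _ _
  obtain ⟨kB, hkB⟩ : ∃ kB : ℝ, kB = s^4/2^19 := ⟨_, rfl⟩
  have hkB0 : 0 < kB := by rw [hkB]; positivity
  have hkBs : 2^19 * kB = s^4 := by rw [hkB]; field_simp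
  have hs4 : s^4 ≤ s := by
    calc s^4 = s^3 * s := by ring
      _ ≤ 1 * s := by
        have : s^3 ≤ 1 := pow_le_one₀ hs0.le hs1
        gcongr
      _ = s := one_mul s
  obtain ⟨ε, hε, hUP⟩ := systemPU kB δ (η/3) hkB0 (by positivity) hδ hδ1
  obtain ⟨κ, hκ, hUD⟩ := systemDU δ (η/3) (by positivity) hδ
  refine ⟨kB, ε, κ, hkB0, hε, hκ, ?_⟩
  intro C hC1 hC ζ hbad
  obtain ⟨TP, hszP, hfP, hP⟩ := hUP C hC1 hC ζ hbad
  obtain ⟨TD, hszD, hfD, hD⟩ := hUD ζ hbad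
  refine ⟨fun n => BThr kB n ∪ (TP n ∪ TD n), ?_, ?_, ?_⟩
  · rintro n t (⟨v, hv, rfl⟩ | ht | ht)
    · have h1 := (thBk_rel hkB0 (rho_pos n) hv).2
      rw [div_le_iff₀ (rho_pos n), hkBs] at h1
      refine h1.trans (mul_le_mul_of_nonneg_right ?_ (rho_pos n).le)
      linarith
    · refine (hszP n t ht).2.trans (mul_le_mul_of_nonneg_right ?_ (rho_pos n).le)
      linarith
    · refine (hszD n t ht).2.trans (mul_le_mul_of_nonneg_right ?_ (rho_pos n).le)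
      linarith
  · intro n x hno
    have s1 := smallB kB (rho n) x (η/3) hkB0 (rho_pos n) s hs0.le hs1 hkBs hsη
    have s2 := hfP n x (fun m hm t ht => hno m hm t (Or.inl ht))
      (fun m hm t ht => hno m hm t (Or.inr (Or.inl ht)))
    have s3 := hfD n x (fun m hm t ht => hno m hm t (Or.inr (Or.inr ht)))
    refine (s1.union (rho_pos n) (s2.union (rho_pos n) s3)).mono ?_ (le_of_eq (by ring))
    rintro t ⟨(⟨v, hv, rfl⟩ | ht | ht), hmeet⟩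
    · exact Or.inl ⟨v, ⟨hv, hmeet⟩, rfl⟩
    · exact Or.inr (Or.inl ⟨ht, hmeet⟩)
    · exact Or.inr (Or.inr ⟨ht, hmeet⟩)
  · intro ξ hξ
    refine ⟨?_, hP ξ (fun n t ht => hξ n t (Or.inr (Or.inl ht))),
      hD ξ (fun n t ht => hξ n t (Or.inr (Or.inr ht)))⟩
    intro v hv hv0
    obtain ⟨n, hn, _⟩ := stBk kB v hv hv0
    exact hξ n (thBk kB v) (Or.inl hn)

/-- **Countably many badly approximable numbers at the same time, with uniform constants.** -/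
theorem fullU (δ : ℕ → ℝ) (hδ : ∀ k, 0 < δ k) (hδ1 : ∀ k, δ k ≤ 1) (l : ℕ) (s : ℝ)
    (hs0 : 0 < s) (hs : s ≤ 1 - 1/(8*(l+1))) :
    ∃ c ε κ : ℕ → ℝ, (∀ k, 0 < c k) ∧ (∀ k, 0 < ε k) ∧ (∀ k, 0 < κ k) ∧
    ∀ C : ℕ → ℕ, (∀ k, 2^20/δ k < (2:ℝ)^(C k)) → (∀ k, 1 ≤ C k) →
    ∀ ζ σ a : ℕ → ℝ, (∀ k, σ k = 1 ∨ σ k = -1) →
    (∀ k, ∀ q p : ℤ, q ≠ 0 → δ k ≤ |(q:ℝ)| * |(q:ℝ)*(ζ k) - p|) →
    ENNReal.ofReal s ≤
      dimH {ξ : ℝ | ∀ k, GoodU (c k) (ε k) (κ k) (C k) (ζ k) (σ k * ξ + a k)} := by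
  obtain ⟨η, hηdef⟩ : ∃ η : ℝ, η = 1/(((l:ℝ)+1) * 2^18) := ⟨_, rfl⟩
  have hl0 : (0:ℝ) ≤ l := Nat.cast_nonneg l
  have hη0 : 0 < η := by rw [hηdef]; positivity
  have hη1 : η ≤ 1/2^18 := by
    rw [hηdef]
    refine one_div_le_one_div_of_le (by norm_num) ?_
    nlinarith
  have hη2 : η ≤ 1/8192 := hη1.trans (by norm_num)
  obtain ⟨e, he⟩ : ∃ e : ℕ → ℝ, e = fun k => η/(8 * 65536^k) := ⟨_, rfl⟩
  have he0 : ∀ k, 0 < e k := fun k => by rw [he]; positivity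
  have her : ∀ k, e k < rho k := by
    intro k
    rw [he]
    unfold rho
    rw [one_div, inv_pow]
    simp only
    rw [div_lt_iff₀ (by positivity)]
    have : ((65536:ℝ)^k)⁻¹ * (8 * 65536^k) = 8 := by field_simp
    rw [this]
    linarith [show (1:ℝ)/2^18 < 8 by norm_num]
  have hew : ∀ k : ℕ, ((k:ℝ)+1) * (4096^k * e k) ≤ (η/8) * (1/2)^k := by
    intro k
    rw [he]
    simp only
    have h1 : (k:ℝ) + 1 ≤ 2^k := by
      have : k + 1 ≤ 2^k := Nat.lt_two_pow_self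
      exact_mod_cast this
    have h2 : (4096:ℝ)^k * (η/(8 * 65536^k)) = (η/8) * (1/16)^k := by
      rw [div_pow, one_pow, show (65536:ℝ) = 4096 * 16 by norm_num, mul_pow]
      field_simp
    rw [h2]
    have h3 : (0:ℝ) ≤ (η/8) * (1/16)^k := by positivity
    calc ((k:ℝ)+1) * ((η/8) * (1/16)^k) ≤ 2^k * ((η/8) * (1/16)^k) := by gcongr
      _ = (η/8) * (2 * (1/16))^k := by rw [mul_pow]; ring
      _ ≤ (η/8) * (1/2)^k := by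
        have : (2 * (1/16) : ℝ)^k ≤ (1/2)^k := pow_le_pow_left₀ (by norm_num) (by norm_num) k
        gcongr
  choose c ε κ hc hε hκ hU using fun k => sysAllU (δ k) (e k) (he0 k) (hδ k) (hδ1 k)
  refine ⟨c, ε, κ, hc, hε, hκ, ?_⟩
  intro C hC hC1 ζ σ a hσ hbad
  choose T hsz hfT hT using fun k => hU k (C k) (hC k) (hC1 k) (ζ k) (hbad k)
  have hsz' : ∀ k, ∀ n ≤ k, ∀ t ∈ tr (σ k) (a k) '' T k n, t.2 < rho k := by
    rintro k n _ _ ⟨t, ht, rfl⟩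
    have h1 := hsz k n t ht
    have h2 : rho n ≤ 1 := by
      have := rho_anti (Nat.zero_le n)
      unfold rho at this ⊢
      simpa using this
    have h3 := her k
    have h4 := he0 k
    simp only [tr]
    nlinarith
  choose T' hT1 hT2 hT3 using fun k => delay (fun n => tr (σ k) (a k) '' T k n) (e k) (he0 k).le k
    (hsz' k) (Fm_tr (hσ k) (a k) (hfT k))
  obtain ⟨Thr, hThr⟩ : ∃ Thr : ℕ → Set (ℝ × ℝ), Thr = fun n => {t | ∃ k, t ∈ T' k n} := ⟨_, rfl⟩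
  have hfin : ∀ (n : ℕ) (x : ℝ), (∀ m < n, ∀ t ∈ Thr m, ¬ (|x - t.1| + rho n ≤ t.2)) →
      Small (rho n) {t | t ∈ Thr n ∧ |t.1 - x| < t.2 + rho n} η := by
    intro n x hno
    rw [hThr] at hno ⊢
    have s2 : ∀ k ∈ Finset.range (n+1), Small (rho n)
        {t | t ∈ T' k n ∧ |t.1 - x| < t.2 + rho n} ((η/8) * (1/2)^k) := by
      intro k _
      exact (hT3 k n x (fun m hm t ht => hno m hm t ⟨k, ht⟩)).mono (fun t ht => ht) (hew k)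
    have s3 := Small.biUnion (rho_pos n) (Finset.range (n+1)) _ _ s2
    refine s3.mono ?_ ?_
    · rintro t ⟨⟨k, hk⟩, hmeet⟩
      have hkn : k ∈ Finset.range (n+1) := by
        rw [Finset.mem_range]
        by_contra hge
        push Not at hge
        rw [hT1 k n (by omega)] at hk
        simp at hk
      exact ⟨k, hkn, hk, hmeet⟩
    · rw [← Finset.mul_sum]
      have := sum_geometric_two_le (n+1)
      have h4 : (η/8) * ∑ i ∈ Finset.range (n+1), (1/2:ℝ)^i ≤ (η/8) * 2 := by gcongr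
      linarith
  refine (game_dim Thr η hη0.le hη2 hfin l hηdef.le s hs0 hs).trans (dimH_mono ?_)
  intro ξ hξ k
  refine hT k _ (fun n t ht => ?_)
  obtain ⟨m, hm⟩ := hT2 k n (tr (σ k) (a k) t) ⟨t, ht, rfl⟩
  have h1 := hξ m (tr (σ k) (a k) t) (by rw [hThr]; exact ⟨k, hm⟩)
  rw [tr_dist (hσ k)] at h1
  exact h1

lemma bad_intU {ζ c : ℝ} (hc : ∀ q : ℕ, 0 < q → c ≤ (q:ℝ) * nrm ((q:ℝ) * ζ)) :
    ∀ q p : ℤ, q ≠ 0 → c ≤ |(q:ℝ)| * |(q:ℝ) * ζ - p| := by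
  intro q p hq
  have h1 := hc q.natAbs (Int.natAbs_pos.2 hq)
  have e1 : ((q.natAbs : ℕ) : ℝ) = |(q:ℝ)| := by rw [Nat.cast_natAbs]; push_cast; rfl
  rw [e1] at h1
  refine h1.trans (mul_le_mul_of_nonneg_left ?_ (abs_nonneg _))
  unfold nrm
  rcases le_or_gt 0 (q:ℝ) with h | h
  · rw [abs_of_nonneg h]
    exact round_le _ _
  · rw [abs_of_neg h]
    have := round_le (-(q:ℝ) * ζ) (-p)
    refine this.trans (le_of_eq ?_)
    rw [← abs_neg]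
    congr 1
    push_cast
    ring

lemma bad_ofU {ξ c : ℝ} (hc : 0 < c)
    (h : ∀ v : ℤ × ℤ, IsCoprime v.1 v.2 → 0 < v.1 → c/(v.1:ℝ)^2 ≤ |ξ - (v.2:ℝ)/v.1|) :
    ∀ q : ℕ, 0 < q → c ≤ (q:ℝ) * nrm ((q:ℝ) * ξ) := by
  intro q hq
  set p : ℤ := round ((q:ℝ) * ξ) with hp
  have hqz : (q:ℤ) ≠ 0 := by omega
  obtain ⟨g, q0, p0, hg, hcop, hq0, hp0⟩ : ∃ g q0 p0 : ℤ, 0 < g ∧ IsCoprime q0 p0 ∧
      (q:ℤ) = g * q0 ∧ p = g * p0 := by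
    refine ⟨(Int.gcd q p : ℤ), (q:ℤ) / (Int.gcd q p : ℤ), p / (Int.gcd q p : ℤ), ?_, ?_, ?_, ?_⟩
    · have := Int.gcd_pos_of_ne_zero_left p hqz
      exact_mod_cast this
    · rw [Int.isCoprime_iff_gcd_eq_one]
      exact Int.gcd_ediv_gcd_ediv_gcd (Int.gcd_pos_of_ne_zero_left p hqz)
    · exact (Int.mul_ediv_cancel' (Int.gcd_dvd_left _ _)).symm
    · exact (Int.mul_ediv_cancel' (Int.gcd_dvd_right _ _)).symm
  have hq0pos : 0 < q0 := by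
    by_contra hneg
    push Not at hneg
    have : g * q0 ≤ 0 := mul_nonpos_of_nonneg_of_nonpos hg.le hneg
    omega
  have h1 := h (q0, p0) hcop hq0pos
  simp only at h1
  have hgr : (1:ℝ) ≤ (g:ℝ) := by exact_mod_cast hg
  have hq0r : (0:ℝ) < (q0:ℝ) := by exact_mod_cast hq0pos
  have hqr : (q:ℝ) = g * q0 := by exact_mod_cast hq0
  have hpr : (p:ℝ) = g * p0 := by exact_mod_cast hp0
  unfold nrm
  rw [← hp]
  have e : (q:ℝ) * ξ - p = (g * q0) * (ξ - (p0:ℝ)/q0) := by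
    rw [hqr, hpr]; field_simp
  rw [e, abs_mul, abs_of_pos (by positivity : (0:ℝ) < g * q0), hqr]
  rw [div_le_iff₀ (by positivity)] at h1
  set t := |ξ - (p0:ℝ)/q0| with ht
  have ht0 : 0 ≤ t := abs_nonneg _
  calc c ≤ t * (q0:ℝ)^2 := h1
    _ = t * (q0:ℝ)^2 * (1 * 1) := by ring
    _ ≤ t * (q0:ℝ)^2 * (g * g) := by gcongr
    _ = g * q0 * (g * q0 * t) := by ring

lemma D_pos_ofU {ξ ζ ε δ : ℝ} {C : ℕ} (hε : 0 < ε) (hC : 1 ≤ C) (hδ0 : 0 < δ)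
    (hbad : ∀ q p : ℤ, q ≠ 0 → δ ≤ |(q:ℝ)| * |(q:ℝ)*ζ - p|)
    (hP : ∀ (m : ℕ) (v : ℤ × ℤ × ℤ), Prim v → 0 < v.1 → (v.1:ℝ) ≤ ((2:ℝ)^(C*5^m))^4 →
        |(v.2.1:ℝ) - ζ * v.1| < 1 →
        (thP ζ ε ((2:ℝ)^(C*5^m)) v).2 ≤ |ξ - (thP ζ ε ((2:ℝ)^(C*5^m)) v).1|) :
    ∀ N q : ℕ, 0 < q → q ≤ 16^(C*5^N) →
      ε ≤ (((16^(C*5^N) : ℕ)):ℝ) * (nrm ((q:ℝ) * ξ) * nrm ((q:ℝ) * ζ)) := by
  intro N q hq hqQ
  · skip
    have hqr : (0:ℝ) < q := by exact_mod_cast hq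
    have hQe : (((16^(C*5^N) : ℕ)):ℝ) = ((2:ℝ)^(C*5^N))^4 := by
      rw [Nat.cast_pow, ← pow_mul, mul_comm (C*5^N) 4, pow_mul (2:ℝ) 4]
      congr 1
      norm_num
    set p : ℤ := round ((q:ℝ) * ξ) with hp
    set p' : ℤ := round ((q:ℝ) * ζ) with hp'
    obtain ⟨g, z, hg, hz, h1, h2, h3⟩ := exists_prim (q:ℤ) p' p (by
      rintro ⟨h, _, _⟩
      omega)
    have hgr : (1:ℝ) ≤ (g:ℝ) := by exact_mod_cast hg
    have hg0 : (0:ℝ) < (g:ℝ) := lt_of_lt_of_le one_pos hgr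
    have hqg : (q:ℝ) = g * z.1 := by exact_mod_cast h1
    have hpg' : (p':ℝ) = g * z.2.1 := by exact_mod_cast h2
    have hpg : (p:ℝ) = g * z.2.2 := by exact_mod_cast h3
    have hz1 : (0:ℝ) < z.1 := by
      by_contra hneg
      push Not at hneg
      nlinarith
    have hz1' : 0 < z.1 := by exact_mod_cast hz1
    have hbz := hbad z.1 z.2.1 (by omega)
    rw [abs_of_pos hz1, show (z.1:ℝ)*ζ - z.2.1 = -((z.2.1:ℝ) - ζ * z.1) by ring, abs_neg] at hbz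
    have hnζ : nrm ((q:ℝ) * ζ) = g * |(z.2.1:ℝ) - ζ * z.1| := by
      have e : (q:ℝ) * ζ - p' = -(g * ((z.2.1:ℝ) - ζ * z.1)) := by rw [hpg', hqg]; ring
      unfold nrm
      rw [← hp', e, abs_neg, abs_mul, abs_of_pos hg0]
    set y := |(z.2.1:ℝ) - ζ * z.1| with hy
    have hy0 : 0 < y := by
      by_contra hneg
      push Not at hneg
      nlinarith
    have hnξ : nrm ((q:ℝ) * ξ) = g * (z.1 * |ξ - (z.2.2:ℝ)/z.1|) := by
      have e : (q:ℝ) * ξ - p = g * (z.1 * (ξ - (z.2.2:ℝ)/z.1)) := by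
        rw [hpg, hqg]; field_simp
      unfold nrm
      rw [← hp, e, abs_mul, abs_mul, abs_of_pos hg0, abs_of_pos hz1]
    have hy1 : y < 1 := by
      have := nrm_le_half ((q:ℝ) * ζ)
      rw [hnζ] at this
      nlinarith
    have hzQ : (z.1:ℝ) ≤ ((2:ℝ)^(C*5^N))^4 := by
      rw [← hQe]
      have h6 : (z.1:ℝ) ≤ q := by rw [hqg]; nlinarith
      have h7 : (q:ℝ) ≤ ((16^(C*5^N) : ℕ):ℝ) := by exact_mod_cast hqQ
      linarith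
    have h4 := hP N z hz hz1' hzQ hy1
    simp only [thP] at h4
    rw [← hy] at h4
    set A := (2:ℝ)^(C*5^N) with hA
    have hA0 : 0 < A := by rw [hA]; positivity
    clear_value A
    rw [hnζ, hnξ, hQe]
    set t := |ξ - (z.2.2:ℝ)/z.1| with ht
    have ht0 : 0 ≤ t := abs_nonneg _
    rw [div_le_iff₀ (by positivity)] at h4
    calc ε ≤ t * (A^4 * z.1 * y) := h4
      _ = A^4 * (z.1 * t * y) * (1 * 1) := by ring
      _ ≤ A^4 * (z.1 * t * y) * (g * g) := by gcongr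
      _ = A^4 * ((g * (z.1 * t)) * (g * y)) := by ring

lemma badVector_ofU {ξ ζ κ : ℝ} (hκ : 0 < κ)
    (hV : ∀ (v : ℤ × ℤ × ℤ), Prim v → 0 < v.1 →
        κ ≤ Real.sqrt (v.1:ℝ) * max |(v.2.1:ℝ) - ζ * v.1| |(v.1:ℝ) * ξ - v.2.2|) :
    ∀ q : ℕ, 0 < q →
      κ ≤ Real.sqrt (q:ℝ) * max (nrm ((q:ℝ) * ξ)) (nrm ((q:ℝ) * ζ)) := by
  intro q hq
  have hqr : (0:ℝ) < q := by exact_mod_cast hq
  set p : ℤ := round ((q:ℝ) * ξ) with hp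
  set p' : ℤ := round ((q:ℝ) * ζ) with hp'
  obtain ⟨g, z, hg, hz, h1, h2, h3⟩ := exists_prim (q:ℤ) p' p (by
    rintro ⟨h, _, _⟩
    omega)
  have hgr : (1:ℝ) ≤ (g:ℝ) := by exact_mod_cast hg
  have hg0 : (0:ℝ) < (g:ℝ) := lt_of_lt_of_le one_pos hgr
  have hqg : (q:ℝ) = g * z.1 := by exact_mod_cast h1
  have hpg' : (p':ℝ) = g * z.2.1 := by exact_mod_cast h2
  have hpg : (p:ℝ) = g * z.2.2 := by exact_mod_cast h3
  have hz1 : (0:ℝ) < z.1 := by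
    by_contra hneg
    push Not at hneg
    nlinarith
  have hz1' : 0 < z.1 := by exact_mod_cast hz1
  have h4 := hV z hz hz1'
  have hnζ : nrm ((q:ℝ) * ζ) = g * |(z.2.1:ℝ) - ζ * z.1| := by
    have e : (q:ℝ) * ζ - p' = -(g * ((z.2.1:ℝ) - ζ * z.1)) := by rw [hpg', hqg]; ring
    unfold nrm
    rw [← hp', e, abs_neg, abs_mul, abs_of_pos hg0]
  have hnξ : nrm ((q:ℝ) * ξ) = g * |(z.1:ℝ) * ξ - z.2.2| := by
    have e : (q:ℝ) * ξ - p = g * ((z.1:ℝ) * ξ - z.2.2) := by rw [hpg, hqg]; ring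
    unfold nrm
    rw [← hp, e, abs_mul, abs_of_pos hg0]
  set a := |(z.2.1:ℝ) - ζ * z.1| with ha
  set b := |(z.1:ℝ) * ξ - z.2.2| with hb
  have ha0 : 0 ≤ a := abs_nonneg _
  have hb0 : 0 ≤ b := abs_nonneg _
  have h5 : Real.sqrt (z.1:ℝ) ≤ Real.sqrt (q:ℝ) := Real.sqrt_le_sqrt (by rw [hqg]; nlinarith)
  rw [hnζ, hnξ]
  have h6 : max a b ≤ max (g * b) (g * a) := by
    refine max_le ?_ ?_
    · exact le_trans (by nlinarith) (le_max_right _ _)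
    · exact le_trans (by nlinarith) (le_max_left _ _)
  calc κ ≤ Real.sqrt (z.1:ℝ) * max a b := h4
    _ ≤ Real.sqrt (q:ℝ) * max (g * b) (g * a) := by
        have : 0 ≤ max a b := ha0.trans (le_max_left _ _)
        gcongr


end Pool.Agent.F2CG
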